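import Pool.Agent.K7.H85.MS.Defs

/-!
# Project MS (helper85), job REC: a Lyapunov function on the circles
-/

set_option autoImplicit false

open MeasureTheory Set intervalIntegral

namespace Pool.Agent.K7.H34.MS

open Pool.Agent.K7.H85.MS

section one

variable {H : ℝ → ℝ} {M : ℤ}

/-- A Lyapunov function of a lift of an orientation preserving circle homeomorphism, with respect to
the points with `H t = t + M`, if `H t - t - M` takes both signs. -/
theorem lyap_one (hc : Continuous H) (hm : Monotone H) (hp : ∀ t, H (t + 1) = H t + 1)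
    (ha : ∃ a, a + M < H a) (hb : ∃ b, H b < b + M) :
    ∃ ψ : ℝ → ℝ, Continuous ψ ∧ (∀ t, ψ (t + 1) = ψ t) ∧
      ∀ t, ψ t ≤ ψ (H t) ∧ (ψ (H t) = ψ t → H t = t + M) := by
  let δ : ℝ → ℝ := fun t => H t - t - M
  have hδ : Continuous δ := by fun_prop
  have hδp : Function.Periodic δ 1 := by
    intro t
    change H (t + 1) - (t + 1) - M = H t - t - M
    rw [hp]
    ring
  let A : ℝ := ∫ t in (0:ℝ)..1, max (-δ t) 0
  let B : ℝ := ∫ t in (0:ℝ)..1, max (δ t) 0
  have hfr : ∀ t, ∃ c ∈ Icc (0:ℝ) 1, δ c = δ t := by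
    intro t
    refine ⟨Int.fract t, ⟨Int.fract_nonneg t, (Int.fract_lt_one t).le⟩, ?_⟩
    have h1 := hδp.int_mul (⌊t⌋) (Int.fract t)
    rw [mul_one, add_comm, Int.floor_add_fract] at h1
    exact h1.symm
  have hA : 0 < A := by
    refine integral_pos zero_lt_one (by fun_prop) (fun x _ => le_max_right _ _) ?_
    obtain ⟨b, hb⟩ := hb
    obtain ⟨c, hc1, hc2⟩ := hfr b
    refine ⟨c, hc1, lt_max_of_lt_left ?_⟩
    rw [hc2]
    change 0 < -(H b - b - M)
    linarith
  have hB : 0 < B := by
    refine integral_pos zero_lt_one (by fun_prop) (fun x _ => le_max_right _ _) ?_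
    obtain ⟨a, ha⟩ := ha
    obtain ⟨c, hc1, hc2⟩ := hfr a
    refine ⟨c, hc1, lt_max_of_lt_left ?_⟩
    rw [hc2]
    change 0 < H a - a - M
    linarith
  let f : ℝ → ℝ := fun t => A * max (δ t) 0 - B * max (-δ t) 0
  have hf : Continuous f := by fun_prop
  have hfp : Function.Periodic f 1 := by
    intro t
    change A * max (δ (t + 1)) 0 - B * max (-δ (t + 1)) 0 = _
    rw [hδp t]
  have hi : ∀ a b : ℝ, IntervalIntegrable f volume a b := fun a b => hf.intervalIntegrable a b
  have hf01 : ∫ t in (0:ℝ)..1, f t = 0 := by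
    change ∫ t in (0:ℝ)..1, (A * max (δ t) 0 - B * max (-δ t) 0) = 0
    rw [intervalIntegral.integral_sub ((by fun_prop : Continuous _).intervalIntegrable _ _)
      ((by fun_prop : Continuous _).intervalIntegrable _ _),
      intervalIntegral.integral_const_mul, intervalIntegral.integral_const_mul]
    change A * B - B * A = 0
    ring
  let ψ : ℝ → ℝ := fun t => ∫ s in (0:ℝ)..t, f s
  have hψ : Continuous ψ := continuous_primitive (fun a b => hi a b) 0
  have hψp : Function.Periodic ψ 1 := by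
    intro t
    change ∫ s in (0:ℝ)..(t + 1), f s = ∫ s in (0:ℝ)..t, f s
    rw [← integral_add_adjacent_intervals (hi 0 t) (hi t (t + 1)),
      hfp.intervalIntegral_add_eq t 0, zero_add, hf01, add_zero]
  have hsub : ∀ a b, ψ b - ψ a = ∫ s in a..b, f s := fun a b =>
    integral_interval_sub_left (hi 0 b) (hi 0 a)
  have hshift : ∀ t, ψ (H t) = ψ (H t - M) := by
    intro t
    have h1 := hψp.int_mul M (H t - M)
    rw [mul_one, sub_add_cancel] at h1
    exact h1
  refine ⟨ψ, hψ, hψp, fun t => ?_⟩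
  rcases lt_trichotomy (δ t) 0 with h | h | h
  · have hlt : H t - M < t := by
      change H t - t - M < 0 at h
      linarith
    have h1 : 0 < ∫ s in (H t - M)..t, -f s := by
      refine integral_pos hlt hf.neg.continuousOn (fun x hx => ?_) ⟨t, ⟨hlt.le, le_rfl⟩, ?_⟩
      · have h2 : δ x ≤ 0 := by
          change H x - x - M ≤ 0
          have := hm hx.2
          linarith [hx.1]
        change 0 ≤ -(A * max (δ x) 0 - B * max (-δ x) 0)
        rw [max_eq_right h2, max_eq_left (by linarith)]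
        nlinarith
      · change 0 < -(A * max (δ t) 0 - B * max (-δ t) 0)
        rw [max_eq_right h.le, max_eq_left (by linarith)]
        nlinarith
    rw [intervalIntegral.integral_neg, ← hsub] at h1
    rw [hshift]
    exact ⟨by linarith, fun h2 => by linarith⟩
  · have h1 : H t = t + M := by
      change H t - t - M = 0 at h
      linarith
    refine ⟨?_, fun _ => h1⟩
    rw [hshift, h1, add_sub_cancel_right]
  · have hlt : t < H t - M := by
      change 0 < H t - t - M at h
      linarith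
    have h1 : 0 < ∫ s in t..(H t - M), f s := by
      refine integral_pos hlt hf.continuousOn (fun x hx => ?_) ⟨t, ⟨le_rfl, hlt.le⟩, ?_⟩
      · have h2 : 0 ≤ δ x := by
          change 0 ≤ H x - x - M
          have := hm hx.1.le
          linarith [hx.2]
        change 0 ≤ A * max (δ x) 0 - B * max (-δ x) 0
        rw [max_eq_left h2, max_eq_right (by linarith)]
        nlinarith
      · change 0 < A * max (δ t) 0 - B * max (-δ t) 0
        rw [max_eq_left h.le, max_eq_right (by linarith)]
        nlinarith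
    rw [← hsub] at h1
    rw [hshift]
    exact ⟨by linarith, fun h2 => by linarith⟩

end one

variable {k : ℕ} {σ : Fin k → Fin k} {g : Fin k → ℝ → ℝ}

theorem itg_add (a b : ℕ) (i : Fin k) (t : ℝ) :
    itg σ g (a + b) i t = itg σ g a (σ^[b] i) (itg σ g b i t) := by
  induction a with
  | zero => rw [Nat.zero_add]; rfl
  | succ a ih =>
    rw [Nat.add_right_comm]
    change g (σ^[a + b] i) (itg σ g (a + b) i t) = g (σ^[a] (σ^[b] i)) _
    rw [ih, Function.iterate_add_apply]

theorem itg_one (i : Fin k) (t : ℝ) : itg σ g 1 i t = g i t := rfl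

theorem iter_mul {q : ℕ} {i : Fin k} (h : σ^[q] i = i) (n : ℕ) : σ^[q * n] i = i := by
  rw [Function.iterate_mul]
  exact Function.iterate_fixed h n

theorem itg_mul {q : ℕ} {i : Fin k} (h : σ^[q] i = i) (n : ℕ) (t : ℝ) :
    itg σ g (q * n) i t = (itg σ g q i)^[n] t := by
  induction n with
  | zero => rw [Nat.mul_zero]; rfl
  | succ n ih =>
    rw [Nat.mul_succ, Nat.add_comm, itg_add, iter_mul h n, ih, Function.iterate_succ_apply']

theorem itg_cont (hg : Lifts g) (q : ℕ) (i : Fin k) : Continuous (itg σ g q i) := by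
  induction q with
  | zero => exact continuous_id
  | succ q ih => exact (hg.1 _).continuous.comp ih

theorem itg_mono (hg : Lifts g) (q : ℕ) (i : Fin k) : StrictMono (itg σ g q i) := by
  induction q with
  | zero => exact strictMono_id
  | succ q ih => exact (strictMono_of_deriv_pos (hg.2.1 _)).comp ih

theorem itg_per (hg : Lifts g) (q : ℕ) (i : Fin k) (t : ℝ) :
    itg σ g q i (t + 1) = itg σ g q i t + 1 := by
  induction q with
  | zero => rfl
  | succ q ih =>
    change g _ (itg σ g q i (t + 1)) = g _ (itg σ g q i t) + 1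
    rw [ih, hg.2.2]

theorem itg_diff (hg : Lifts g) (q : ℕ) (i : Fin k) : Differentiable ℝ (itg σ g q i) := by
  induction q with
  | zero => exact differentiable_id
  | succ q ih => exact (hg.1 _).comp ih

theorem add_int {h : ℝ → ℝ} (hp : ∀ t, h (t + 1) = h t + 1) (m : ℤ) (t : ℝ) :
    h (t + m) = h t + m := by
  have h1 : Function.Periodic (fun t => h t - t) 1 := by
    intro t
    change h (t + 1) - (t + 1) = h t - t
    rw [hp]
    ring
  have h2 := h1.int_mul m t
  rw [mul_one] at h2
  change h (t + m) - (t + m) = h t - t at h2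
  linarith

/-- iterates of `h` with `h t` on one side of `t + m` -/
theorem iter_lt {h : ℝ → ℝ} (hm : StrictMono h) (hp : ∀ t, h (t + 1) = h t + 1) {m : ℤ} {t : ℝ}
    (ht : t + m < h t) {n : ℕ} (hn : 0 < n) : t + (m * n : ℤ) < h^[n] t := by
  induction n with
  | zero => exact absurd hn (lt_irrefl 0)
  | succ n ih =>
    rcases Nat.eq_zero_or_pos n with rfl | hn'
    · simpa using ht
    · have h1 := hm (ih hn')
      rw [add_int hp] at h1
      rw [Function.iterate_succ_apply']
      push_cast at h1 ⊢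
      linarith

theorem iter_gt {h : ℝ → ℝ} (hm : StrictMono h) (hp : ∀ t, h (t + 1) = h t + 1) {m : ℤ} {t : ℝ}
    (ht : h t < t + m) {n : ℕ} (hn : 0 < n) : h^[n] t < t + (m * n : ℤ) := by
  induction n with
  | zero => exact absurd hn (lt_irrefl 0)
  | succ n ih =>
    rcases Nat.eq_zero_or_pos n with rfl | hn'
    · simpa using ht
    · have h1 := hm (ih hn')
      rw [add_int hp] at h1
      rw [Function.iterate_succ_apply']
      push_cast at h1 ⊢
      linarith

/-- a function with a zero of non-zero derivative takes both signs -/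
theorem both_signs {h : ℝ → ℝ} (hd : Differentiable ℝ h) {m : ℤ} {t : ℝ} (ht : h t = t + m)
    (h1 : deriv h t ≠ 1) : (∃ a, a + m < h a) ∧ ∃ b, h b < b + m := by
  constructor
  · by_contra hcon
    push Not at hcon
    have h2 : IsLocalMax (fun s => h s - (s + m)) t := by
      refine Filter.Eventually.of_forall fun s => ?_
      change h s - (s + m) ≤ h t - (t + m)
      rw [ht]
      linarith [hcon s]
    have h3 := h2.deriv_eq_zero
    have h4 : HasDerivAt (fun s => h s - (s + m)) (deriv h t - 1) t :=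
      (hd t).hasDerivAt.sub ((hasDerivAt_id t).add_const (m : ℝ))
    rw [h4.deriv] at h3
    exact h1 (by linarith)
  · by_contra hcon
    push Not at hcon
    have h2 : IsLocalMin (fun s => h s - (s + m)) t := by
      refine Filter.Eventually.of_forall fun s => ?_
      change h t - (t + m) ≤ h s - (s + m)
      rw [ht]
      linarith [hcon s]
    have h3 := h2.deriv_eq_zero
    have h4 : HasDerivAt (fun s => h s - (s + m)) (deriv h t - 1) t :=
      (hd t).hasDerivAt.sub ((hasDerivAt_id t).add_const (m : ℝ))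
    rw [h4.deriv] at h3
    exact h1 (by linarith)

/-- **A Lyapunov function on the circles.** -/
theorem lyap (hg : Lifts g) (hc : HypCyc σ g) :
    ∃ L : Fin k → ℝ → ℝ, (∀ i, Continuous (L i)) ∧ (∀ i t, L i (t + 1) = L i t) ∧
      ∀ i t, L i t ≤ L (σ i) (g i t) ∧ (L (σ i) (g i t) = L i t →
        ∃ (q : ℕ) (m : ℤ), 0 < q ∧ σ^[q] i = i ∧ itg σ g q i t = t + m) := by
  choose q m hq hσ hex hder using hc
  let Q : ℕ := ∏ i, q i
  have hQ : 0 < Q := Finset.prod_pos fun i _ => hq i
  have hdv : ∀ i, ∃ n, 0 < n ∧ Q = q i * n := by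
    intro i
    obtain ⟨n, hn⟩ := Finset.dvd_prod_of_mem q (Finset.mem_univ i)
    exact ⟨n, Nat.pos_of_ne_zero fun h => by simp [Q, hn, h] at hQ, hn⟩
  choose n hn hQn using hdv
  have hσQ : ∀ i, σ^[Q] i = i := fun i => by
    rw [hQn i]
    exact iter_mul (hσ i) (n i)
  have hmain : ∀ i, ∃ ψ : ℝ → ℝ, Continuous ψ ∧ (∀ t, ψ (t + 1) = ψ t) ∧
      ∀ t, ψ t ≤ ψ (itg σ g Q i t) ∧ (ψ (itg σ g Q i t) = ψ t →
        itg σ g Q i t = t + (m i * n i : ℤ)) := by
    intro i
    obtain ⟨t₀, ht₀⟩ := hex i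
    obtain ⟨⟨a, ha⟩, ⟨b, hb⟩⟩ := both_signs (itg_diff hg (q i) i) ht₀ (hder i t₀ ht₀)
    refine lyap_one (itg_cont hg Q i) (itg_mono hg Q i).monotone (itg_per hg Q i) ⟨a, ?_⟩ ⟨b, ?_⟩
    · rw [hQn i, itg_mul (hσ i)]
      exact iter_lt (itg_mono hg (q i) i) (itg_per hg (q i) i) ha (hn i)
    · rw [hQn i, itg_mul (hσ i)]
      exact iter_gt (itg_mono hg (q i) i) (itg_per hg (q i) i) hb (hn i)
  choose ψ h1 h2 h3 using hmain
  refine ⟨fun i t => ∑ r ∈ Finset.range Q, ψ (σ^[r] i) (itg σ g r i t), fun i => ?_,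
    fun i t => ?_, fun i t => ?_⟩
  · exact continuous_finsetSum _ fun r _ => (h1 _).comp (itg_cont hg r i)
  · refine Finset.sum_congr rfl fun r _ => ?_
    rw [itg_per hg, h2]
  · have e1 : ∑ r ∈ Finset.range Q, ψ (σ^[r] (σ i)) (itg σ g r (σ i) (g i t)) =
        ∑ r ∈ Finset.range Q, ψ (σ^[r + 1] i) (itg σ g (r + 1) i t) := by
      refine Finset.sum_congr rfl fun r _ => ?_
      rw [itg_add r 1 i t]
      rfl
    have e2 : ∑ r ∈ Finset.range Q, ψ (σ^[r + 1] i) (itg σ g (r + 1) i t) + ψ i t =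
        ∑ r ∈ Finset.range Q, ψ (σ^[r] i) (itg σ g r i t) + ψ i (itg σ g Q i t) := by
      have a1 := Finset.sum_range_succ (fun r => ψ (σ^[r] i) (itg σ g r i t)) Q
      have a2 := Finset.sum_range_succ' (fun r => ψ (σ^[r] i) (itg σ g r i t)) Q
      rw [hσQ] at a1
      rw [a1] at a2
      exact a2.symm
    obtain ⟨h4, h5⟩ := h3 i t
    refine ⟨?_, fun h6 => ?_⟩
    · change _ ≤ ∑ r ∈ Finset.range Q, ψ (σ^[r] (σ i)) (itg σ g r (σ i) (g i t))
      rw [e1]
      linarith
    · change ∑ r ∈ Finset.range Q, ψ (σ^[r] (σ i)) (itg σ g r (σ i) (g i t)) = _ at h6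
      rw [e1] at h6
      refine ⟨Q, _, hQ, hσQ i, h5 ?_⟩
      linarith

end Pool.Agent.K7.H34.MS
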